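import Pool.Agent.Lib.MP_b5021c_nt.IfaceKO
import Pool.Agent.Lib.MP_b5021c_nt.W.H63.I2
import Pool.Agent.Lib.MP_b5021c_nt.W.H52.Car

/-!
# MP_b5021c_nt, board b5: the rows Io2S (helper63) and Io3S (helper52) in the form of IfaceKO
-/

namespace Pool.Agent.B5.H73

open Polynomial
open Pool.Agent.B5

theorem io2 : Io2S := fun q f a h hc hu ha => Nr.Sch.i2 q f a h hc hu ha

theorem io3 : Io3S := by
  intro q f a h hc hu ha hn
  refine Nr.Sch.i3 q f a h hc hu ha ?_
  rw [one_div]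
  exact_mod_cast hn

end Pool.Agent.B5.H73
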