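import Pool.Agent.Lib.MP_b5021c_nt.O1.H73.OneV

/-!
# MP_b5021c_nt, board b5, row O1_I: leaf (O1-i), no small factor at the A-load
-/

set_option linter.unusedSectionVars false

namespace Pool.Agent.B5.H73

open scoped LaurentPolynomial
open Polynomial
open Pool.Agent.B5

theorem supp_cst_mul' {L : Type} [AddCommGroup L] {c : RO ℤ} (hc : c ≠ 0) (G : AO ℤ L) :
    supp (cst c * G) = supp G := by
  ext a
  change (cst c * G).coeff a ≠ 0 ↔ G.coeff a ≠ 0
  rw [H71.cst_mul_coeff]
  exact ⟨fun h1 h2 => h1 (by rw [h2, mul_zero]), fun h1 => mul_ne_zero hc h1⟩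

theorem o1i (hB5a : B5aS) (hMV : MVS) (hDcv : DcvS) (hUf : UfrS) (hEv : EvzS) (hEx : O1exS)
    (hTj : O1tjS) (hUfv : O1ufS) : O1iS := by
  intro P L _ _ _ _ _ phi D S i0 h c n0 G q f e a p j hKo hray hRN hO1 hfj hZ
  have hdd : DD phi D := hKo.min.fp.dd
  have hj := hKo.j2
  have hrk := hKo.rk
  have hq0 : q.coeff 0 = 1 := hRN.loc.q0
  have hf0 : f.coeff 0 = 1 := hO1.f0
  obtain ⟨w, C1, n1, s, hw, hC0, hCz, hcw⟩ := classV_one hZ.cc
  -- f - q = j X C1
  have hfq : f - q = C (j : ℤ) * X * C1 := by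
    obtain ⟨t, n2, ht⟩ := zfree_coeff0 hZ.zf
    obtain ⟨hS, hS0, lam, hlS, hlp⟩ := hray
    have h1 := (hB5a ℤ L D (co phi i0) S h (-e) lam hlS hlp).1
    rw [hZ.eq, H71.cst_mul_coeff, ht, hcw, hw, Units.val_neg, neg_mul, hRN.DS, hRN.D0] at h1
    refine low (t := -(s * t)) (N := n1 + n2) ?_ ?_ ?_ hC0 ?_
    · rw [coeff_sub, hf0, hq0, sub_self]
    · rw [coeff_sub, hfj]
    · exact_mod_cast (by omega : j ≠ 0)
    · have h2 : (toLaurent (f - q) : RO ℤ) = -(toLaurent q + -toLaurent f) := by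
        rw [map_sub]; ring
      rw [h2, ← h1, map_neg, map_mul, LaurentPolynomial.T_add]
      ring
  obtain ⟨g, hg⟩ := exists_ser f hC0
  have hg0 : g 0 = 1 := by
    have h1 := congrArg (PowerSeries.coeff 0) hg
    rw [PowerSeries.coeff_mul, Finset.Nat.antidiagonal_zero, Finset.sum_singleton] at h1
    simp only [Polynomial.coeff_coe, PowerSeries.coeff_mk, hC0, hf0, one_mul] at h1
    exact h1
  have hg1 : g 1 = f.coeff 1 - C1.coeff 1 := by
    have h1 := congrArg (PowerSeries.coeff 1) hg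
    rw [PowerSeries.coeff_mul, Finset.Nat.sum_antidiagonal_eq_sum_range_succ_mk,
      Finset.sum_range_succ, Finset.sum_range_one] at h1
    simp only [Polynomial.coeff_coe, PowerSeries.coeff_mk, hC0, hg0, Nat.sub_zero, Nat.sub_self,
      one_mul, mul_one] at h1
    linarith
  have hD := fun (m : ℕ) (hm : 2 ≤ m) => hDcv P L phi D S i0 h q f C1 e w a c n0 G j m g hdd
    (by omega) hray hRN hf0 hZ hC0 hcw (by omega) hfq hg hm
  have hddD' : ∀ D' : AO ℤ L, Stable D' → Unitary D' → Irreducible D' → supp D' ⊆ supp D →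
      rk (supp D') = Module.finrank ℤ L → DD phi D' := fun D' h1 h2 h3 h4 h5 =>
    ⟨hdd.inj, fun b hb => hdd.bin b (h4 hb), h1, h2, h3, h5⟩
  rcases hEx q f C1 a p j hO1 hC0 hCz hfq with h0 | h1
  · -- g 1 = 0
    rw [← hg1] at h0
    refine hTj q f C1 a p j g hO1 hC0 hCz hfq hg h0 ?_
    intro m hm k hk
    obtain ⟨e0, e1, cm, D', u0, w', he01, hcm0, hser, hSt, hUn, hIr, hsub, hE0, hE1, hcl, hcl1,
      hclD, hle, hrkD⟩ := hD m hm
    have he1 : e1 = 0 := by
      by_contra hne
      have h2 := hddD' D' hSt hUn hIr hsub (hrkD hne)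
      rw [h0] at hcl
      have h3 : ClassV ((j : ℕ) : ℝ) (D'.coeff 0) := by
        have : ((j : ℝ) - ((0 : ℤ) : ℝ)) = ((j : ℕ) : ℝ) := by push_cast; ring
        rw [← this]
        exact hcl
      have h4 := hEv j hj P L phi D' h2 h3
      rw [hrk] at h4
      push_cast at h4
      linarith
    rw [he1, Polynomial.coe_zero, neg_zero] at hser
    have hcm : (cm : PowerSeries ℤ) ≠ 0 := by
      intro h5
      have h6 : cm = 0 := by
        apply Polynomial.coe_injective
        rw [h5, Polynomial.coe_zero]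
      rw [h6, coeff_zero] at hcm0
      exact zero_ne_one hcm0
    have h7 := (mul_eq_zero.mp hser).resolve_left hcm
    have h8 := congrArg (PowerSeries.coeff k) h7
    rw [PowerSeries.coeff_mk, map_zero] at h8
    exact h8
  · -- g 1 = -1
    rw [← hg1] at h1
    refine hUfv q f C1 a p j g hO1 hC0 hCz hfq hg h1 ?_
    intro m hm
    obtain ⟨e0, e1, cm, D', u0, w', he01, hcm0, hser, hSt, hUn, hIr, hsub, hE0, hE1, hcl, hcl1,
      hclD, hle, hrkD⟩ := hD m hm
    have he1c : e1.coeff 0 = 1 := by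
      have h2 := congrArg (PowerSeries.coeff 0) hser
      rw [PowerSeries.coeff_mul, Finset.Nat.antidiagonal_zero, Finset.sum_singleton, map_neg] at h2
      simp only [Polynomial.coeff_coe, PowerSeries.coeff_mk, hcm0, one_mul, mul_zero, zero_add] at h2
      rw [h1] at h2
      linarith
    have hne : e1 ≠ 0 := by
      rintro rfl
      rw [coeff_zero] at he1c
      exact zero_ne_one he1c
    have he0c : e0.coeff 0 = ((j + 1 : ℕ) : ℤ) := by
      have h2 := congrArg (fun r : ℤ[X] => r.coeff 0) he01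
      simp only [coeff_sub, coeff_C_mul, hcm0, he1c, mul_one] at h2
      push_cast
      linarith
    have hmp : 0 < m := by omega
    have hddE := hddD' D' hSt hUn hIr hsub (hrkD hne)
    have hDS : D'.coeff S ≠ 0 := by
      intro h3
      rw [h3, mul_zero, mul_zero] at hE1
      have h4 : (toLaurent (expand ℤ m e1) : RO ℤ) = 0 := by
        rw [← neg_eq_zero, ← hE1]
      have h5 : expand ℤ m e1 = 0 := toLaurent_injective (by rw [h4, map_zero])
      exact hne ((expand_eq_zero hmp).mp h5)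
    have hrayE : Ray D' S := by
      obtain ⟨hS, hS0, lam, hlS, hlp⟩ := hray
      exact ⟨hDS, hS0, lam, hlS, fun b hb => hlp b (hsub hb)⟩
    have hc'0 : ((w' : RO ℤ) * toLaurent (expand ℤ m cm)) ≠ 0 := (hMV ℤ).1 1 _ hcl1 |>.1
    have hc0 : c ≠ 0 := (hMV ℤ).1 1 _ hZ.cc |>.1
    have hZE : Zfd phi D' S i0 h (-e) ((w' : RO ℤ) * toLaurent (expand ℤ m cm)) n0 G :=
      { cc := hcl1
        eq := hclD
        irr := hZ.irr
        wd := hZ.wd
        big := hZ.big
        zf := hZ.zf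
        dr := by
          rw [hclD, supp_cst_mul' hc'0, ← supp_cst_mul' hc0, ← hZ.eq]
          exact hZ.dr }
    have hN : ClassV ((j + 1 : ℕ) : ℝ) (D'.coeff 0) := by
      rw [h1] at hcl
      have : ((j : ℝ) - ((-1 : ℤ) : ℝ)) = ((j + 1 : ℕ) : ℝ) := by push_cast; ring
      rw [← this]
      exact hcl
    have hUF := hUf P L phi D' S i0 h (-e) _ n0 G (j + 1) (expand ℤ m e0) (expand ℤ m e1) u0
      hddE hrayE hZE (by omega) hN (by omega) ?_ hE0 hE1 ?_ ?_
    · rcases alt (j := j) hm (by omega) he01 hser hUF with h9 | ⟨k, ep, hk, hep, hl, hi⟩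
      · exact Or.inl h9
      · exact Or.inr ⟨k, ep, hk, hep, hl, hi⟩
    · exact hKo.ih _ (by omega)
    · have : (expand ℤ m e0).coeff 0 = e0.coeff 0 := by
        have := coeff_expand_mul hmp e0 0
        rwa [zero_mul] at this
      rw [this, he0c]
    · have : (expand ℤ m e1).coeff 0 = e1.coeff 0 := by
        have := coeff_expand_mul hmp e1 0
        rwa [zero_mul] at this
      rw [this, he1c]

end Pool.Agent.B5.H73
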