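import Pool.Agent.Lib.MP_b5021c_nt.IfaceO1

/-!
# Row O1_I: one variable auxiliary facts
-/

set_option linter.unusedSectionVars false

namespace Pool.Agent.B5.H73

open scoped LaurentPolynomial
open Polynomial
open Pool.Agent.B5

theorem zfree_coeff0 {L : Type} [AddCommGroup L] {V : AO ℤ L} (h : ZFree V) :
    ∃ (t : ℤ) (n : ℤ), V.coeff 0 = LaurentPolynomial.C t * LaurentPolynomial.T n := by
  obtain ⟨q, l, n, hq, hk⟩ := h
  refine ⟨(V.coeff 0).coeff n, n, ?_⟩
  rw [← LaurentPolynomial.single_eq_C_mul_T]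
  apply AddMonoidAlgebra.ext
  apply Finsupp.ext
  intro k
  rw [AddMonoidAlgebra.coeff_single]
  by_cases hkn : n = k
  · subst hkn
    simp
  · rw [Finsupp.single_apply, if_neg hkn]
    by_contra h0
    have h1 := hk 0 k h0
    rw [map_zero, zero_add] at h1
    have h2 : (q : ℤ) ≠ 0 := by exact_mod_cast hq.ne'
    exact hkn (mul_left_cancel₀ h2 h1).symm

theorem classV_one {c : RO ℤ} (h : ClassV 1 c) :
    ∃ (w : (RO ℤ)ˣ) (C1 : ℤ[X]) (n s : ℤ), (w : RO ℤ) = LaurentPolynomial.C s * LaurentPolynomial.T n ∧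
      C1.coeff 0 = 1 ∧
      (∀ z : ℂ, ‖z‖ < 1 → aeval z C1 ≠ 0) ∧ c = (w : RO ℤ) * toLaurent C1 := by
  obtain ⟨-, n, q, hc, hq0, hz⟩ := h
  have h1 : q.coeff 0 = 1 ∨ q.coeff 0 = -1 := by
    have h2 : ‖((q.coeff 0 : ℤ) : ℂ)‖ = 1 := hq0
    rw [Complex.norm_intCast] at h2
    have h3 : |q.coeff 0| = 1 := by exact_mod_cast h2
    rcases abs_eq (by norm_num : (0:ℤ) ≤ 1) |>.mp h3 with h | h
    · exact Or.inl h
    · exact Or.inr h
  obtain ⟨s, hs, hss⟩ : ∃ s : ℤ, s * q.coeff 0 = 1 ∧ s * s = 1 := by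
    rcases h1 with h | h
    · exact ⟨1, by rw [h]; norm_num, by norm_num⟩
    · exact ⟨-1, by rw [h]; norm_num, by norm_num⟩
  have hu : IsUnit (LaurentPolynomial.C s * LaurentPolynomial.T n : RO ℤ) := by
    refine IsUnit.mul ?_ (LaurentPolynomial.isUnit_T n)
    exact (IsUnit.of_mul_eq_one s hss).map LaurentPolynomial.C
  refine ⟨hu.unit, C s * q, n, s, hu.unit_spec, ?_, ?_, ?_⟩
  · rw [coeff_C_mul, hs]
  · intro z hz1
    have h2 := hz z hz1
    rw [eval_map] at h2
    have h3 : aeval z q ≠ 0 := h2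
    rw [map_mul, aeval_C]
    refine mul_ne_zero ?_ h3
    intro h4
    have h5 : s = 0 := by
      have : (algebraMap ℤ ℂ) s = (s : ℂ) := rfl
      rw [this] at h4
      exact_mod_cast h4
    rw [h5] at hss
    norm_num at hss
  · rw [hu.unit_spec, hc, map_mul, toLaurent_C]
    have h6 : (LaurentPolynomial.C s * LaurentPolynomial.C s : RO ℤ) = 1 := by
      rw [← map_mul, hss, map_one]
    calc (LaurentPolynomial.T n * toLaurent q : RO ℤ)
        = 1 * (LaurentPolynomial.T n * toLaurent q) := (one_mul _).symm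
      _ = (LaurentPolynomial.C s * LaurentPolynomial.C s) * (LaurentPolynomial.T n * toLaurent q) := by
          rw [h6]
      _ = _ := by ring

/-- The lowest terms. -/
theorem low {g C1 : ℤ[X]} {t N : ℤ} {j : ℤ} (hg0 : g.coeff 0 = 0) (hg1 : g.coeff 1 = j)
    (hj : j ≠ 0) (hC : C1.coeff 0 = 1)
    (he : (toLaurent g : RO ℤ) = LaurentPolynomial.C t * LaurentPolynomial.T N * toLaurent C1) :
    g = C j * X * C1 := by
  have hgne : g ≠ 0 := by
    rintro rfl
    rw [coeff_zero] at hg1
    exact hj hg1.symm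
  rcases le_or_gt 0 N with hN | hN
  · obtain ⟨M, rfl⟩ := Int.eq_ofNat_of_zero_le hN
    have h1 : g = C t * X ^ M * C1 := by
      apply toLaurent_injective
      rw [map_mul, map_mul, toLaurent_C, toLaurent_X_pow]
      exact he
    rcases (by omega : M = 0 ∨ M = 1 ∨ 2 ≤ M) with hM | hM | hM
    · subst hM
      have h2 := hg0
      rw [h1, pow_zero, mul_one, coeff_C_mul, hC, mul_one] at h2
      rw [h2] at h1
      exact absurd (by rw [h1]; simp) hgne
    · subst hM
      have h2 := hg1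
      rw [h1, pow_one, mul_assoc, coeff_C_mul, coeff_X_mul, hC, mul_one] at h2
      rw [h1, h2, pow_one]
    · exfalso
      have h2 := hg1
      rw [h1, mul_assoc, coeff_C_mul, coeff_X_pow_mul', if_neg (by omega), mul_zero] at h2
      exact hj h2.symm
  · obtain ⟨M, hM⟩ := Int.eq_ofNat_of_zero_le (by omega : 0 ≤ -N)
    have hM1 : 1 ≤ M := by omega
    have h1 : X ^ M * g = C t * C1 := by
      apply toLaurent_injective
      rw [map_mul, map_mul, toLaurent_C, toLaurent_X_pow, he]
      have h3 : (LaurentPolynomial.T (M : ℤ) * LaurentPolynomial.T N : RO ℤ) = 1 := by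
        rw [← LaurentPolynomial.T_add, show (M : ℤ) + N = 0 by omega, LaurentPolynomial.T_zero]
      calc (LaurentPolynomial.T (M : ℤ) *
            (LaurentPolynomial.C t * LaurentPolynomial.T N * toLaurent C1) : RO ℤ)
          = (LaurentPolynomial.T (M : ℤ) * LaurentPolynomial.T N) *
              (LaurentPolynomial.C t * toLaurent C1) := by ring
        _ = _ := by rw [h3, one_mul]
    have h2 : (X ^ M * g).coeff 0 = (C t * C1).coeff 0 := by rw [h1]
    rw [coeff_C_mul, hC, mul_one, coeff_X_pow_mul', if_neg (by omega)] at h2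
    rw [← h2, C_0, zero_mul] at h1
    exact absurd ((mul_eq_zero.mp h1).resolve_left (pow_ne_zero _ X_ne_zero)) hgne

theorem exists_ser {C1 : ℤ[X]} (f : ℤ[X]) (hC : C1.coeff 0 = 1) :
    ∃ g : ℕ → ℤ, (C1 : PowerSeries ℤ) * PowerSeries.mk g = (f : PowerSeries ℤ) := by
  have hu : IsUnit (C1 : PowerSeries ℤ) := by
    rw [PowerSeries.isUnit_iff_constantCoeff]
    have : PowerSeries.constantCoeff (C1 : PowerSeries ℤ) = 1 := by
      rw [← PowerSeries.coeff_zero_eq_constantCoeff_apply, Polynomial.coeff_coe, hC]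
    rw [this]
    exact isUnit_one
  obtain ⟨v, hv⟩ := hu.exists_right_inv
  refine ⟨fun k => PowerSeries.coeff k (v * (f : PowerSeries ℤ)), ?_⟩
  have h1 : PowerSeries.mk (fun k => PowerSeries.coeff k (v * (f : PowerSeries ℤ))) =
      v * (f : PowerSeries ℤ) := by
    ext k
    rw [PowerSeries.coeff_mk]
  rw [h1, ← mul_assoc, hv, one_mul]

/-- The values of `g` in the second alternative. -/
theorem ser_val {k : ℕ} {ep j : ℤ} {G : ℕ → ℤ} (hk : 1 ≤ k)
    (h : ((1 - C ep * X ^ k : ℤ[X]) : PowerSeries ℤ) * PowerSeries.mk G =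
      -((1 + C ((j - 1) * ep) * X ^ k : ℤ[X]) : PowerSeries ℤ)) :
    (∀ l, 1 ≤ l → G (k * l) = -j * ep ^ l) ∧ ∀ i, 1 ≤ i → ¬ k ∣ i → G i = 0 := by
  have hrec : ∀ i, G i - (if k ≤ i then ep * G (i - k) else 0) =
      -((if i = 0 then 1 else 0) + (if i = k then (j - 1) * ep else 0)) := by
    intro i
    have h1 := congrArg (PowerSeries.coeff i) h
    have h2 : ((1 - C ep * X ^ k : ℤ[X]) : PowerSeries ℤ) =
        1 - PowerSeries.C ep * PowerSeries.X ^ k := by
      rw [Polynomial.coe_sub, Polynomial.coe_one, Polynomial.coe_mul, Polynomial.coe_C,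
        Polynomial.coe_pow, Polynomial.coe_X]
    rw [h2, sub_mul, one_mul, mul_assoc, map_sub, PowerSeries.coeff_mk, PowerSeries.coeff_C_mul,
      PowerSeries.coeff_X_pow_mul', map_neg, Polynomial.coeff_coe, coeff_add, coeff_one,
      coeff_C_mul, coeff_X_pow] at h1
    rw [PowerSeries.coeff_mk, mul_ite, mul_zero, mul_ite, mul_one, mul_zero] at h1
    exact h1
  have hG0 : G 0 = -1 := by
    have := hrec 0
    rw [if_neg (by omega), if_pos rfl, if_neg (by omega)] at this
    linarith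
  have hGk : G k = -j * ep := by
    have := hrec k
    rw [if_pos le_rfl, Nat.sub_self, hG0, if_neg (by omega), if_pos rfl] at this
    linarith
  constructor
  · intro l hl
    induction l, hl using Nat.le_induction with
    | base => rw [mul_one, hGk, pow_one]
    | succ l hl ih =>
      have h1 := hrec (k * (l + 1))
      have h2 : k * (l + 1) - k = k * l := by rw [mul_add, mul_one, Nat.add_sub_cancel]
      have h3 : k * (l + 1) ≠ 0 := by positivity
      have h4 : k * (l + 1) ≠ k := by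
        intro h5
        have : k * (l + 1) = k * 1 := by rw [h5, mul_one]
        have := Nat.eq_of_mul_eq_mul_left (by omega) this
        omega
      rw [if_pos (by nlinarith), h2, ih, if_neg h3, if_neg h4] at h1
      rw [pow_succ]
      linarith
  · intro i
    induction i using Nat.strong_induction_on with
    | _ i ih =>
      intro hi hki
      have h1 := hrec i
      have h3 : i ≠ k := by
        rintro rfl
        exact hki dvd_rfl
      rw [if_neg (by omega : i ≠ 0), if_neg h3] at h1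
      by_cases h4 : k ≤ i
      · rw [if_pos h4, ih (i - k) (by omega) (by omega) ?_] at h1
        · linarith
        · intro h5
          apply hki
          have := (Nat.dvd_sub_iff_left h4 dvd_rfl).mp h5
          exact this
      · rw [if_neg h4] at h1
        linarith

/-- From (O1_UF) to the alternative of (O1_UFV). -/
theorem alt {m j : ℕ} {e0 e1 cm : ℤ[X]} {G : ℕ → ℤ} (hm : 2 ≤ m) (hj : 1 ≤ j)
    (h1 : e0 - e1 = C (j : ℤ) * cm)
    (h2 : (cm : PowerSeries ℤ) * PowerSeries.mk G = -(e1 : PowerSeries ℤ))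
    (ha : (∃ F : ℤ[X], expand ℤ m e0 = C ((j + 1 : ℕ) : ℤ) + F ∧ expand ℤ m e1 = 1 + F ∧
        F.coeff 0 = 0 ∧ ∀ k, |F.coeff k| ≤ 1) ∨
      ∃ (k : ℕ) (ep : ℤ), 1 ≤ k ∧ (ep = 1 ∨ ep = -1) ∧
        expand ℤ m e0 = C ((j + 1 : ℕ) : ℤ) - C ep * X ^ k ∧
        expand ℤ m e1 = 1 + C ((((j + 1 : ℕ) : ℤ) - 2) * ep) * X ^ k) :
    (∀ k, 1 ≤ k → |G k| ≤ 1) ∨
      ∃ (k : ℕ) (ep : ℤ), 1 ≤ k ∧ (ep = 1 ∨ ep = -1) ∧
        (∀ l, 1 ≤ l → G (k * l) = -j * ep ^ l) ∧ ∀ i, 1 ≤ i → ¬ k ∣ i → G i = 0 := by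
  have hj0 : (j : ℤ) ≠ 0 := by exact_mod_cast (by omega : j ≠ 0)
  have hmp : 0 < m := by omega
  have hCj : (C (j : ℤ) : ℤ[X]) ≠ 0 := by rwa [Ne, C_eq_zero]
  rcases ha with ⟨F, hF0, hF1, hF, hFk⟩ | ⟨k, ep, hk, hep, hE0, hE1⟩
  · left
    have h3 : expand ℤ m (C (j : ℤ) * cm) = C (j : ℤ) := by
      rw [← h1, map_sub, hF0, hF1]
      push_cast
      rw [map_add, C_1]
      ring
    have h4 : cm = 1 := by
      have h5 : C (j : ℤ) * cm = C (j : ℤ) := by
        apply expand_injective hmp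
        rw [h3, expand_C]
      exact mul_left_cancel₀ hCj (by rw [h5, mul_one])
    intro k hk
    rw [h4, coe_one, one_mul] at h2
    have h5 := congrArg (PowerSeries.coeff k) h2
    rw [PowerSeries.coeff_mk, map_neg, Polynomial.coeff_coe] at h5
    have h6 : e1.coeff k = F.coeff (m * k) := by
      have h7 : (expand ℤ m e1).coeff (m * k) = (1 + F).coeff (m * k) := by rw [hF1]
      rw [mul_comm m k, coeff_expand_mul hmp, coeff_add, coeff_one, if_neg (by positivity),
        zero_add] at h7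
      rw [h7, mul_comm]
    rw [h5, abs_neg, h6]
    exact hFk _
  · right
    have hmk : m ∣ k := by
      by_contra hmk
      have h7 : (expand ℤ m e0).coeff k = (C ((j + 1 : ℕ) : ℤ) - C ep * X ^ k).coeff k := by
        rw [hE0]
      rw [coeff_expand hmp, if_neg hmk, coeff_sub, coeff_C, if_neg (by omega), coeff_C_mul,
        coeff_X_pow, if_pos rfl] at h7
      rcases hep with h | h <;> rw [h] at h7 <;> norm_num at h7
    obtain ⟨k', rfl⟩ := hmk
    have hk' : 1 ≤ k' := by
      rcases Nat.eq_zero_or_pos k' with h | h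
      · subst h; simp at hk
      · exact h
    have hx : expand ℤ m (X ^ k' : ℤ[X]) = X ^ (m * k') := by
      rw [map_pow, expand_X, ← pow_mul]
    have he0 : e0 = C ((j + 1 : ℕ) : ℤ) - C ep * X ^ k' := by
      apply expand_injective hmp
      rw [hE0, map_sub, map_mul, expand_C, expand_C, hx]
    have he1 : e1 = 1 + C (((j : ℤ) - 1) * ep) * X ^ k' := by
      apply expand_injective hmp
      rw [hE1, map_add (expand ℤ m), map_one (expand ℤ m), map_mul (expand ℤ m), expand_C, hx]
      congr 3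
      push_cast
      ring
    have hcm : cm = 1 - C ep * X ^ k' := by
      apply mul_left_cancel₀ hCj
      rw [← h1, he0, he1]
      push_cast
      simp only [map_add, map_sub, map_mul, C_1]
      ring
    rw [hcm, he1] at h2
    obtain ⟨h8, h9⟩ := ser_val hk' h2
    exact ⟨k', ep, hk', hep, h8, h9⟩

end Pool.Agent.B5.H73
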